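import Pool.Agent.H95.WC.Main
import Pool.Agent.H91.QS.Semi

/-!
# Semisimplicity of the Galois action and coverings of affine spaces

Let `k` be a finitely generated field of characteristic zero (the theorem is true for all fields of
characteristic zero), `G_k` its absolute Galois group and `R = ℚ_ℓ[G_k]`. Let `𝒜` be the category of Chow
motives over `k` with rational coefficients, `T l` its Tate objects, `h(X)` the motive of `X`, and
`H_j(M)` the `ℓ`-adic homology of the motive `M`, a module over `R`; so `H_j(h(X))` is the dual of
`H^j(X̄, ℚ_ℓ)`. For `ε ∈ {0, 1}` the motive `M` has the property `Semi H ε` if `H_j(M)` is semisimple for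
all `j ≡ ε` modulo `2`.

To every separated scheme `X` of finite type over `k` belongs its weight complex with compact support
`W(X)` (Gillet and Soulé, Bondarko), a bounded complex of motives up to homotopy; for smooth projective
`X` it is the motive of `X` in degree zero. Hypotheses `IsFlatWeightComplex`, `HasCoverings`: there are
distinguished triangles for closed-open decompositions, `W` of an affine bundle is a Tate twist of `W` of
the base, and the same holds for flat morphisms with affine spaces as fibres (flat pull-back and
localization), `W` of an open and closed subscheme of `X` is a direct factor of `W(X)`, `W(Spec A)` is a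
retract of a shift of `W(𝔾_m × Spec A)` and of the weight complexes of the coverings `s ^ d = u`, `u` a
unit, and `W(Spec k)` is the unit object. A complex is `Null` if it is contractible modulo the morphisms which factor
through motives with the property `Semi H ε`; then the graded pieces of the weight filtration of the
cohomology with compact supports in the weights `≡ ε` modulo `2` are semisimple.

Let `CBuilt n` be the smallest class of schemes over `k` which contains all separated schemes of finite
type of dimension at most `n` and is closed under closed-open decompositions (two out of three), certain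
affine bundles (in both directions), division by `𝔾_m` and descent along the cyclic coverings
`s ^ d = u`, and which contains with `Spec A` and the closed subscheme `f = 0` of `Spec A` the covering
`∏_{c ∈ S} (w - c) = ∑ x_l f_l` of `𝔸^m_A`, for finite non-empty sets `S ⊆ k`, and conversely, if
`|S| ≥ 2`, with `Spec A` and the covering the closed subscheme `f = 0`. There is no restriction on the
dimension of the schemes in this class.

For polynomials `f_1, …, f_m` in the variables `z_1, …, z_N` let `zeroS f` be the closed subscheme
`f_1 = … = f_m = 0` of the affine space, and `covS S f` the covering `∏_{c ∈ S} (w - c) = ∑ x_l f_l(z)` of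
the affine space with the coordinates `z_1, …, z_N, x_1, …, x_m`. For a trilinear form
`t(x, y, z) = ∑ t_ijl x_i y_j z_l` the polynomials `bq t` are the bilinear forms `∑ t_ijl x_i y_j`; so
`covS {α, β} (bq t)` is the double covering `(w - α)(w - β) = t(x, y, z)`.

We show, for both parities `ε` separately:

* The semisimplicity of `H^i(X̄, ℚ_ℓ)` for the smooth projective varieties `X` of dimension at most `n` and
  `i ≡ ε` is equivalent to the statement that the weight complexes of all schemes in `CBuilt n` are null,
  and to the same statement for the coverings `∏_{c ∈ S} (w - c) = t(x, y, z)` for all trilinear forms `t`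
  over `k` with at most `n + 2` variables `z`, for one fixed set `S ⊆ k` with at least two elements. It
  implies the semisimplicity of `H^i(X̄, ℚ_ℓ)`, `i ≡ ε`, for all smooth projective varieties in `CBuilt n`,
  of any dimension.
* The weight complex of the covering `∏_{c ∈ S} (w - c) = ∑ x_l f_l(z)` is null if and only if the weight
  complex of `f = 0` is.
* Over `k = ℚ` the semisimplicity of `H^i(X̄, ℚ_ℓ)`, `i ≡ ε`, for all smooth projective varieties is
  equivalent to the statement that the weight complexes of the coverings
  `∏_{c ∈ S} (w - c) = ∑_l z_l ∑_{(i, j) ∈ E_l} x_i y_j` are null, for all finite sets `E_l` of pairs.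
* All these coverings are smooth over `k`; and the class `CBuilt n` contains the covering
  `∏_{c ∈ S} (w - c) = t(x, y, z)` if there are at most `n + 2` variables `z`, and the covering
  `∏_{c ∈ S} (w - c) = ∑ x_l f_l(z)` if there are at most `n + 1` variables `z_i`, or if the scheme `f = 0`
  has dimension at most `n`, or if `f_1, …, f_(n+1)` have degree at most two and all other `f_l` degree at
  most one.

By Faltings, Poincaré duality and hard Lefschetz the hypothesis is true for even `i` and `n = 1`, and for
odd `i` and `n = 2`. So all cohomology groups of the smooth projective varieties in `CBuilt 1` are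
semisimple, and the odd cohomology groups of the smooth projective varieties in `CBuilt 2`, of any
dimension.
-/

set_option autoImplicit false

open CategoryTheory Limits MonoidalCategory AlgebraicGeometry Pool.Agent.Y116.UV
  Pool.Agent.W5h93.EX Pool.Agent.W5h93.WC Pool.Agent.W5h68.CP Pool.Agent.H91.QS
  Pool.Agent.H95.WC

universe v u w r

namespace Pool.Agent.Results.MP_b4801b_ag.CoveringsOfAffineSpaces

/-- **Semisimplicity of the Galois action and coverings of affine spaces.** See the explanations
above. -/
theorem result {k : Type} [Field k] [CharZero k] {𝒜 : Type u} [Category.{v} 𝒜] [Preadditive 𝒜]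
    [HasZeroObject 𝒜] [HasBinaryBiproducts 𝒜] [MonoidalCategory 𝒜] [MonoidalPreadditive 𝒜]
    {R : Type r} [Ring R] {T : ℤ → 𝒜} {H : ℤ → 𝒜 ⥤ ModuleCat.{w} R} (hH : IsGaloisHomology T H)
    {W : Sch k → HomotopyCategory 𝒜 (ComplexShape.up ℤ)} (hW : IsFlatWeightComplex T W)
    (hc : HasCoverings W) {Q : Sch k → Prop} (hQ : IsClass Q) (h : Sch k → 𝒜)
    (hh : ∀ X, Q X → Nonempty (W X ≅ cpx (h X))) (ε : ℤ) :
    CovReduces Q (fun X => Semi H ε (h X)) (fun X => Null (Semi H ε) (W X).as) ∧ CovMembers k :=
  ⟨covReduces_wc (V := semiCls hH ε) (fun l _ hM => hM.twist hH l) (fun j _ => hH.unit j) hW hc hQ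
    h hh, covMembers⟩

end Pool.Agent.Results.MP_b4801b_ag.CoveringsOfAffineSpaces
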