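import Pool.Agent.H9.CD.Main
import Pool.Agent.H91.QS.Semi

/-!
# Semisimplicity of the Galois action and completions of partial matrices

Let `k` be a field of characteristic zero, for example finitely generated. A partial matrix `Z` over `k`
has at some places prescribed elements of `k`. If `Z` is a partial square matrix let `glC Z` be the scheme
of its invertible completions: the open subscheme `det ≠ 0` of an affine space, where the entries of the
matrix at the free places are independent variables. For each partial matrix `Z` let `rkC Z` be the affine
scheme of its completions of rank at most three (it is given by the minors of size four). For `k = ℚ` (all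
elements of `k` are quotients of integers, `Frac k`) let `glS k Z` and `rkS k Z` be the schemes of the
invertible matrices and of the matrices of rank at most three with zeros at the places of the set `Z`.

Let `𝒜` be the category of Chow motives over `k` with rational coefficients, `T l` its Tate objects, `h(X)`
the motive of `X`. For a prime `ℓ` let `H_j(M)` be the `ℓ`-adic homology of the motive `M`, a module over
the group algebra `ℚ_ℓ[G_k]`. For a pair `θ = (ℓ, ε)` the property `Semi (H θ) (ε θ)` of a motive says that
the `H_j(M)`, `j ≡ ε` modulo `2`, are semisimple: the even and the odd degrees are treated separately, and
so are the primes `ℓ`.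

To every separated scheme `X` of finite type over `k` belongs its weight complex with compact support
`W(X)` (Gillet and Soulé, Bondarko), a bounded complex of Chow motives up to homotopy; for smooth
projective `X` it is the motive of `X` in degree zero. Hypotheses `IsWeightComplex`, `HasFiniteCovers`:
there are distinguished triangles for closed-open decompositions, `W` of an affine bundle is a Tate twist
of `W` of the base, `W(Spec A)` is a retract of a shift of `W(𝔾_m × Spec A)` and of the weight complexes of
the finite free coverings of `Spec A`, and `W(Spec k)` is the unit object. A complex is `Null` if it is
contractible modulo the morphisms which factor through motives with the property `Semi`; then the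
cohomology groups of the complexes `H_j(W(X))`, which are the graded pieces of the weight filtration of the
`ℓ`-adic cohomology of `X` with compact support, are semisimple.

**Theorem.** The following are equivalent, for every `ℓ` and every parity `ε` separately:

1. The representations `H^j_ℓ(X)`, `j ≡ ε` modulo `2`, are semisimple for all smooth projective varieties
   `X` over `k`.
2. The weight complexes of the schemes of the invertible completions of all partial square matrices over
   `k` are null. For `k = ℚ` it is enough to prescribe zeros.
3. The weight complexes of the schemes of the completions of rank at most three of all partial matrices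
   over `k` are null. For `k = ℚ` it is enough to prescribe zeros.

For each `X` there are finitely many partial matrices, the same ones for all `ℓ` and `ε`, such that 2. for
these matrices implies 1. for `X`. The weight complex in 2. is null if 1. is true in dimension at most the
number of the free places; so it is null for partial matrices with at most one free place, by Faltings.

The case `k = ℚ` decides Q1: a smooth projective variety over a number field is also a smooth projective
scheme over `ℚ`, and the case of finitely generated fields follows by specialization (Serre: there are
closed points with the same image of Galois). The universality of the completions of partial matrices is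
the theorem of helper57 (`MP_fc2ced_ag.MatrixCompletions`), here with alterations, finite lists and
dimensions.
-/

set_option autoImplicit false

open CategoryTheory Limits MonoidalCategory AlgebraicGeometry Pool.Agent.Y116.UV
  Pool.Agent.W5h93.EX Pool.Agent.W5h93.WC Pool.Agent.W5h68.CP Pool.Agent.H91.QS Pool.Agent.H9.CD

universe v u x w r

namespace Pool.Agent.Results.MP_b4801b_ag.MatrixCompletions

/-- **Semisimplicity of the Galois action and completions of partial matrices.** See the explanations
above. -/
theorem result {k : Type} [Field k] [CharZero k] {𝒜 : Type u} [Category.{v} 𝒜] [Preadditive 𝒜]
    [HasZeroObject 𝒜] [HasBinaryBiproducts 𝒜] [MonoidalCategory 𝒜] [MonoidalPreadditive 𝒜]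
    {T : ℤ → 𝒜} {Θ : Type w} {R : Θ → Type r} [∀ θ, Ring (R θ)]
    {H : ∀ θ, ℤ → 𝒜 ⥤ ModuleCat.{x} (R θ)} (hH : ∀ θ, IsGaloisHomology T (H θ)) (ε : Θ → ℤ)
    {W : Sch k → HomotopyCategory 𝒜 (ComplexShape.up ℤ)} (hW : IsWeightComplex T W)
    (hc : HasFiniteCovers W) {Q : Sch k → Prop} (hQ : IsClass Q) (hA : HasAlterations Q)
    (h : Sch k → 𝒜) (hh : ∀ X, Q X → Nonempty (W X ≅ cpx (h X))) :
    CompletionsDecide Q (fun θ X => Semi (H θ) (ε θ) (h X))
      (fun θ X => Null (Semi (H θ) (ε θ)) (W X).as) :=
  completionsDecide_wc (V := fun θ => semiCls (hH θ) (ε θ)) (fun θ l _ hM => hM.twist (hH θ) l)
    (fun θ j _ => (hH θ).unit j) hW hc hQ hA h hh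

end Pool.Agent.Results.MP_b4801b_ag.MatrixCompletions
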