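import Pool.Agent.H91.QS.Semi

/-!
# Semisimplicity of the Galois action and systems of quadratic equations

Let `k` be a finitely generated field of characteristic zero (the theorem is true for all fields of
characteristic zero), `G_k` its absolute Galois group and `R = ℚ_ℓ[G_k]`. Let `𝒜` be the category of Chow
motives over `k` with rational coefficients, `T l` its Tate objects, `h(X)` the motive of `X`, and
`H_j(M)` the `ℓ`-adic homology of the motive `M`, a module over `R`; so `H_j(h(X))` is the dual of
`H^j(X̄, ℚ_ℓ)`. For `ε ∈ {0, 1}` the motive `M` has the property `Semi H ε` if `H_j(M)` is semisimple for
all `j ≡ ε` modulo `2`. To every separated scheme `X` of finite type over `k` belongs its weight complex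
with compact support `W(X)` (Gillet and Soulé, Bondarko), a bounded complex of Chow motives up to
homotopy; for smooth projective `X` it is the motive of `X` in degree zero. Hypotheses `IsWeightComplex`,
`HasCoverings`: there are distinguished triangles for closed-open decompositions, `W` of an affine bundle
is a Tate twist of `W` of the base, `W(Spec A)` is a retract of a shift of `W(𝔾_m × Spec A)` and of the
weight complexes of the coverings `s ^ d = u`, `u` a unit, and `W(Spec k)` is the unit object. A complex is
`Null` if it is contractible modulo the morphisms which factor through motives with the property
`Semi H ε`; then the graded pieces of the weight filtration of the cohomology with compact supports in the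
weights `≡ ε` modulo `2` are semisimple.

Let `Built k n` be the smallest class of schemes which contains the affine schemes of dimension at most
`n` and is closed under closed-open decompositions (two out of three), affine bundles (in both
directions), division by `𝔾_m` and descent along the coverings `s ^ d = u`. We show, for both parities `ε`
separately:

* `Built k n` contains all schemes given by `r + 1` quadratic equations and any number of linear equations
  in any number of variables over an affine base `Spec A`, if `dim A + r ≤ n`. It contains all closed
  subschemes of projective spaces which are the intersection of `n + 1` quadrics and hyperplanes.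
* The semisimplicity of `H^i(X̄, ℚ_ℓ)` for the smooth projective varieties `X` of dimension at most `n` and
  `i ≡ ε` is equivalent to the statement that the weight complexes of all schemes in `Built k n` are
  null; and it implies the semisimplicity of `H^i(X̄, ℚ_ℓ)`, `i ≡ ε`, for all smooth projective varieties
  in `Built k n`, of any dimension.
* It follows from the statement that the weight complexes of the affine schemes given by `n + 2`
  quadratic equations are null.

By Faltings, Poincaré duality and hard Lefschetz the hypothesis is true for even `i` and `n = 1`, and for
odd `i` and `n = 2`. So all cohomology groups of the smooth projective varieties which have a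
decomposition into locally closed pieces, each given by one quadratic equation over a curve or two over
`k`, and linear equations, are semisimple, and the odd cohomology groups of the smooth projective
varieties which have a decomposition into pieces each given by quadratic equations over a surface, by two
quadratic equations over a curve, or by three over `k`. For even `i` the first open case, intersections
of three quadrics, is implied by the semisimplicity of `H^2` of surfaces.
-/

set_option autoImplicit false

open CategoryTheory Limits MonoidalCategory AlgebraicGeometry Pool.Agent.Y116.UV
  Pool.Agent.W5h93.EX Pool.Agent.W5h93.WC Pool.Agent.W5h68.CP Pool.Agent.H91.QS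

universe v u w r

namespace Pool.Agent.Results.MP_b4801b_ag.QuadraticSystems

/-- **Semisimplicity of the Galois action and systems of quadratic equations.** See the explanations
above. -/
theorem result {k : Type} [Field k] [CharZero k] {𝒜 : Type u} [Category.{v} 𝒜] [Preadditive 𝒜]
    [HasZeroObject 𝒜] [HasBinaryBiproducts 𝒜] [MonoidalCategory 𝒜] [MonoidalPreadditive 𝒜]
    {R : Type r} [Ring R] {T : ℤ → 𝒜} {H : ℤ → 𝒜 ⥤ ModuleCat.{w} R} (hH : IsGaloisHomology T H)
    {W : Sch k → HomotopyCategory 𝒜 (ComplexShape.up ℤ)} (hW : IsWeightComplex T W)
    (hc : HasCoverings W) {Q : Sch k → Prop} (hQ : IsClass Q) (h : Sch k → 𝒜)
    (hh : ∀ X, Q X → Nonempty (W X ≅ cpx (h X))) (ε : ℤ) :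
    QuadReduces Q (fun X => Semi H ε (h X)) (fun X => Null (Semi H ε) (W X).as) ∧
      ∀ n, AffineQuadrics k n (Built k n) ∧ ProjectiveQuadrics k n (Built k n) :=
  ⟨quadReduces_wc (V := semiCls hH ε) (fun l _ hM => hM.twist hH l) (fun j _ => hH.unit j) hW hc hQ
    h hh, fun n => ⟨affineQuadrics_built two_ne_zero n, projectiveQuadrics_built two_ne_zero n⟩⟩

end Pool.Agent.Results.MP_b4801b_ag.QuadraticSystems
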