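import Pool.Agent.H91.RF.Semi

/-!
# Semisimplicity of the Galois action for products, coverings and read-once formulas

Let `k` be a finitely generated field of characteristic zero (the theorem is true for all fields of
characteristic zero), `G_k` its absolute Galois group and `R = ℚ_ℓ[G_k]`. Let `𝒜` be the category of Chow
motives over `k` with rational coefficients, `T l` its Tate objects, `h(X)` the motive of `X`, and
`H_j(M)` the `ℓ`-adic homology of the motive `M`, a module over `R`; so `H_j(h(X))` is the dual of
`H^j(X̄, ℚ_ℓ)`. The motive `M` has the property `AllSemi H` if all `H_j(M)` are semisimple. The tensor
product of two motives with this property has this property, by the Künneth formula and the theorem of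
Chevalley (`TensorSemi`).

To every separated scheme `X` of finite type over `k` belongs its weight complex with compact support
`W(X)` (Gillet and Soulé, Bondarko), a bounded complex of Chow motives up to homotopy; for smooth
projective `X` it is the motive of `X` in degree zero. Hypotheses `IsWeightComplex`, `HasCoverings`,
`HasKunneth`: there are distinguished triangles for closed-open decompositions, `W` of an affine bundle is
a Tate twist of `W` of the base, `W(Spec A)` is a retract of a shift of `W(𝔾_m × Spec A)` and of the weight
complexes of the coverings `s ^ d = u`, `u` a unit, `W(Spec k)` is the unit object, and
`W(X × Z) = W(Z) ⊗ h(X)` for smooth projective `X`. A complex is `Null` if it is contractible modulo the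
morphisms which factor through motives with the property `AllSemi H`; then all graded pieces of the weight
filtration of the cohomology with compact supports are semisimple.

The class `Built k n` is the smallest class of separated schemes of finite type over `k` which contains
all affine schemes of dimension at most `n` and is closed under products of affine schemes, closed-open
decompositions (two out of three), isomorphisms, products with the affine line, descent along the
finite étale coverings `s ^ d = u`, `u` a unit, and division by `𝔾_m`. It contains schemes of arbitrary
dimension, in particular

* the closed subschemes `h(f_1, …, f_r) = 0`, `h ∈ S`, of affine spaces, where `f_1, …, f_r` are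
  polynomials in disjoint sets of variables given by read-once formulas with quasi-homogeneous gates in at
  most `n + 1` variables, and the scheme `S = 0` has dimension at most `n`;
* the closed subschemes of projective spaces given by such equations, if `f_1, …, f_r` are homogeneous,
  the elements of `S` are homogeneous for the weights `deg f_i`, and the cone `S = 0` has dimension at most
  `n + 1`.

**Theorem.** The semisimplicity of all `H^i(X̄, ℚ_ℓ)` for the smooth projective varieties `X` of dimension
at most `n` is equivalent to the statement that the weight complexes of all schemes in `Built k n` are
null, and it implies the semisimplicity of all `H^i(X̄, ℚ_ℓ)` for all smooth projective varieties `X` in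
`Built k n`, of any dimension.

By the theorem of Faltings the hypothesis is true for `n = 1`. So all cohomology groups of the smooth
projective varieties in `Built k 1` are semisimple: those which have a decomposition into locally closed
pieces each of which is, for example, a product of affine curves, or the quotient of such a product by
`μ_d` if the product is a covering `s ^ d = u` of the quotient, or an affine scheme as above with `n = 1`,
for example a scheme of solutions of `r - 1` polynomial equations between `r` binary forms in disjoint sets
of variables. For `n = 2` the theorem reduces the question for all such schemes built from surfaces to the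
semisimplicity of `H^2` of surfaces.
-/

set_option autoImplicit false

open CategoryTheory Limits MonoidalCategory AlgebraicGeometry Pool.Agent.Y116.UV
  Pool.Agent.W5h68.SP Pool.Agent.W5h68.PJ Pool.Agent.W5h68.BT Pool.Agent.H89.Dev Pool.Agent.H79.WC
  Pool.Agent.H91.QS Pool.Agent.H91.RF

universe v u w r

namespace Pool.Agent.Results.MP_b4801b_ag.ReadOnceFormulas

/-- **Semisimplicity of the Galois action for products, coverings and read-once formulas.** See the
explanations above. -/
theorem result {k : Type} [Field k] [CharZero k] {𝒜 : Type u} [Category.{v} 𝒜] [Preadditive 𝒜]
    [HasZeroObject 𝒜] [HasBinaryBiproducts 𝒜] [MonoidalCategory 𝒜] [MonoidalPreadditive 𝒜]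
    {R : Type r} [Ring R] {T : ℤ → 𝒜} {H : ℤ → 𝒜 ⥤ ModuleCat.{w} R} (hH : IsGaloisHomology T H)
    (hS : TensorSemi H) {W : Sch k → HomotopyCategory 𝒜 (ComplexShape.up ℤ)}
    (hW : IsWeightComplex T W) (hc : HasCoverings W) {Q : Sch k → Prop} (hQ : IsClass Q)
    (h : Sch k → 𝒜) (hh : ∀ X, Q X → Nonempty (W X ≅ cpx (h X))) (hK : HasKunneth Q h W) :
    TensorReduces Q (fun X => AllSemi H (h X)) (fun X => Null (AllSemi H) (W X).as) :=
  tensorReduces (V := allSemiCls hH) (fun l _ hM => AllSemi.twist hH hM l) hH.unit
    (fun A B hA hB => hS A B hA hB) hW hc hQ h hh hK

end Pool.Agent.Results.MP_b4801b_ag.ReadOnceFormulas
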